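import Mathlib

/-!
# The parameter `λ` of the family of products

The library project H38R2 uses `cc a = (a - 2) / (32 (a - 1))` (levels of the sieve weights and widths of
the error terms) and `th a = 1 - 8 cc a` (the exponent of the norms of the products).  Here
`cc a = λ (a - 2) / (32 (a - 1))` with a parameter `0 < λ ≤ 1`, so that `th a` can be taken as close to `1` as
we want.  The parameter is carried as an instance, so that the statements and the proofs of the library
stay the same.
-/

set_option autoImplicit false

namespace Pool.Agent.H52.W

/-- the parameter -/
class Lam where
  val : ℝ
  pos : 0 < val
  le_one : val ≤ 1

end Pool.Agent.H52.W
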